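import Pool.Agent.K3h27.PP.Stm

/-! PP project (helper27), brick LOWER: the constructions. -/

set_option autoImplicit false

open Finset

namespace Pool.Agent.K3h33.PP

open Pool.Agent.K3h27.PP

lemma mem_P6 {V : Type} [Fintype V] (G : SimpleGraph V) (a b c d e f : V) :
    (a, b, c, d, e, f) ∈ P6 G univ ↔ [a, b, c, d, e, f].Nodup ∧ G.Adj a b ∧ G.Adj b c ∧
      G.Adj c d ∧ G.Adj d e ∧ G.Adj e f := by
  classical
  simp [P6]

/-- more than `k` different vertices below `k` do not exist -/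
lemma no_many {n k : ℕ} (l : List (Fin n)) (hl : l.Nodup) (hlen : k < l.length)
    (h : ∀ x ∈ l, x.val < k) : False := by
  have h1 : (l.map Fin.val).Nodup := hl.map Fin.val_injective
  have h2 : (l.map Fin.val).toFinset ⊆ range k := by
    intro x hx
    rw [List.mem_toFinset, List.mem_map] at hx
    obtain ⟨y, hy, rfl⟩ := hx
    exact mem_range.2 (h y hy)
  have h3 := card_le_card h2
  rw [List.toFinset_card_of_nodup h1, List.length_map, card_range] at h3
  omega

lemma four_lt {n : ℕ} (x y z w : Fin n) (l : List (Fin n)) (hl : l.Nodup)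
    (hs : [x, y, z, w].Sublist l) (hx : x.val < 3) (hy : y.val < 3) (hz : z.val < 3)
    (hw : w.val < 3) : False := by
  apply no_many (k := 3) [x, y, z, w] (hl.sublist hs) (by simp)
  intro v hv
  simp only [List.mem_cons, List.not_mem_nil, or_false] at hv
  rcases hv with rfl | rfl | rfl | rfl <;> assumption

/-- complete graph on the first `k` vertices -/
def GK (n k : ℕ) : SimpleGraph (Fin n) where
  Adj u v := u ≠ v ∧ u.val < k ∧ v.val < k
  symm := ⟨fun u v h => ⟨h.1.symm, h.2.2, h.2.1⟩⟩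
  loopless := ⟨fun u h => h.1 rfl⟩

lemma GK_noP8 {n k : ℕ} (hk : k ≤ 7) : NoP8 (GK n k) := by
  intro a b c d e f g h hnd h1 h2 h3 h4 h5 h6 h7
  apply no_many [a, b, c, d, e, f, g, h] hnd (show k < 8 by omega)
  intro x hx
  simp only [List.mem_cons, List.not_mem_nil, or_false] at hx
  rcases hx with rfl | rfl | rfl | rfl | rfl | rfl | rfl | rfl
  · exact h1.2.1
  · exact h1.2.2
  · exact h2.2.2
  · exact h3.2.2
  · exact h4.2.2
  · exact h5.2.2
  · exact h6.2.2
  · exact h7.2.2

lemma GK_count {n k : ℕ} (hk : k ≤ n) : k.descFactorial 6 ≤ (P6 (GK n k) univ).card := by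
  classical
  let g : (Fin 6 ↪ Fin k) → Fin n × Fin n × Fin n × Fin n × Fin n × Fin n := fun e =>
    (Fin.castLE hk (e 0), Fin.castLE hk (e 1), Fin.castLE hk (e 2), Fin.castLE hk (e 3),
      Fin.castLE hk (e 4), Fin.castLE hk (e 5))
  have hg : Function.Injective g := by
    intro e e' h
    simp only [g, Prod.mk.injEq, Fin.castLE_inj] at h
    obtain ⟨h0, h1, h2, h3, h4, h5⟩ := h
    ext i
    fin_cases i <;> simp_all
  have hc : (univ.image g).card = k.descFactorial 6 := by
    rw [card_image_of_injective _ hg, card_univ, Fintype.card_embedding_eq, Fintype.card_fin,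
      Fintype.card_fin]
  rw [← hc]
  apply card_le_card
  intro p hp
  rw [mem_image] at hp
  obtain ⟨e, -, rfl⟩ := hp
  have hne : ∀ i j : Fin 6, i ≠ j → Fin.castLE hk (e i) ≠ Fin.castLE hk (e j) := by
    intro i j hij h
    exact hij (e.injective (Fin.castLE_injective hk h))
  have hlt : ∀ i : Fin 6, (Fin.castLE hk (e i)).val < k := fun i => (e i).isLt
  rw [mem_P6]
  refine ⟨?_, ⟨hne _ _ (by decide), hlt _, hlt _⟩, ⟨hne _ _ (by decide), hlt _, hlt _⟩,
    ⟨hne _ _ (by decide), hlt _, hlt _⟩, ⟨hne _ _ (by decide), hlt _, hlt _⟩,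
    ⟨hne _ _ (by decide), hlt _, hlt _⟩⟩
  have : [Fin.castLE hk (e 0), Fin.castLE hk (e 1), Fin.castLE hk (e 2), Fin.castLE hk (e 3),
      Fin.castLE hk (e 4), Fin.castLE hk (e 5)] =
      ([0, 1, 2, 3, 4, 5] : List (Fin 6)).map fun i => Fin.castLE hk (e i) := rfl
  rw [this]
  apply List.Nodup.map
  · intro i j h
    exact e.injective (Fin.castLE_injective hk h)
  · decide

/-- the join of three vertices with an empty graph -/
def GJ (n : ℕ) : SimpleGraph (Fin n) where
  Adj u v := u ≠ v ∧ (u.val < 3 ∨ v.val < 3)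
  symm := ⟨fun u v h => ⟨h.1.symm, h.2.symm⟩⟩
  loopless := ⟨fun u h => h.1 rfl⟩

lemma GJ_noP8 {n : ℕ} : NoP8 (GJ n) := by
  intro a b c d e f g h hnd h1 h2 h3 h4 h5 h6 h7
  obtain ⟨-, k1⟩ := h1
  obtain ⟨-, k3⟩ := h3
  obtain ⟨-, k5⟩ := h5
  obtain ⟨-, k7⟩ := h7
  rcases k1 with k1 | k1 <;> rcases k3 with k3 | k3 <;> rcases k5 with k5 | k5 <;>
    rcases k7 with k7 | k7 <;>
    exact four_lt _ _ _ _ _ hnd (by
      repeat first
        | exact List.nil_sublist _
        | apply List.Sublist.cons₂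
        | apply List.Sublist.cons) k1 k3 k5 k7

lemma GJ_count {n : ℕ} (hn : 3 ≤ n) :
    24 * ((n - 3).descFactorial 3) ≤ (P6 (GJ n) univ).card := by
  classical
  let s : (Fin 3 ↪ Fin 3) → Fin 3 → Fin n := fun e i => Fin.castLE hn (e i)
  let t : (Fin 3 ↪ Fin (n - 3)) → Fin 3 → Fin n := fun f i => ⟨3 + (f i).val, by
    have := (f i).isLt
    omega⟩
  let g : Fin 4 × (Fin 3 ↪ Fin 3) × (Fin 3 ↪ Fin (n - 3)) →
      Fin n × Fin n × Fin n × Fin n × Fin n × Fin n := fun q =>
    if q.1 = 0 then (t q.2.2 0, s q.2.1 0, t q.2.2 1, s q.2.1 1, t q.2.2 2, s q.2.1 2)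
    else if q.1 = 1 then (t q.2.2 0, s q.2.1 0, t q.2.2 1, s q.2.1 1, s q.2.1 2, t q.2.2 2)
    else if q.1 = 2 then (t q.2.2 0, s q.2.1 0, s q.2.1 1, t q.2.2 1, s q.2.1 2, t q.2.2 2)
    else (s q.2.1 0, t q.2.2 0, s q.2.1 1, t q.2.2 1, s q.2.1 2, t q.2.2 2)
  have hs : ∀ e i, (s e i).val < 3 := fun e i => (e i).isLt
  have ht : ∀ f i, ¬ (t f i).val < 3 := fun f i => by simp [t]
  have hst : ∀ e i f j, s e i ≠ t f j := by
    intro e i f j h
    apply ht f j
    rw [← h]
    exact hs e i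
  have hts : ∀ e i f j, t f j ≠ s e i := fun e i f j => (hst e i f j).symm
  have hse : ∀ e e', (∀ i, s e i = s e' i) → e = e' := by
    intro e e' h
    apply DFunLike.ext
    intro i
    exact Fin.castLE_injective hn (h i)
  have hte : ∀ f f', (∀ i, t f i = t f' i) → f = f' := by
    intro f f' h
    apply DFunLike.ext
    intro i
    have := congrArg Fin.val (h i)
    simp only [t] at this
    exact Fin.ext (by omega)
  have hsne : ∀ e (i j : Fin 3), i ≠ j → s e i ≠ s e j := by
    intro e i j hij h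
    exact hij (e.injective (Fin.castLE_injective hn h))
  have htne : ∀ f (i j : Fin 3), i ≠ j → t f i ≠ t f j := by
    intro f i j hij h
    have := congrArg Fin.val h
    simp only [t] at this
    exact hij (f.injective (Fin.ext (by omega)))
  have hg : Function.Injective g := by
    rintro ⟨q, e, f⟩ ⟨q', e', f'⟩ h
    have key : q = q' ∧ (∀ i, s e i = s e' i) ∧ (∀ i, t f i = t f' i) := by
      fin_cases q <;> fin_cases q' <;>
        simp [g, hst, hts, Fin.forall_fin_succ] at h ⊢ <;> tauto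
    obtain ⟨h1, h2, h3⟩ := key
    rw [h1, hse e e' h2, hte f f' h3]
  have hc : (univ.image g).card = 24 * (n - 3).descFactorial 3 := by
    rw [card_image_of_injective _ hg, card_univ, Fintype.card_prod, Fintype.card_prod,
      Fintype.card_embedding_eq, Fintype.card_embedding_eq]
    simp only [Fintype.card_fin]
    have : (3 : ℕ).descFactorial 3 = 6 := by decide
    rw [this]
    ring
  rw [← hc]
  apply card_le_card
  intro p hp
  rw [mem_image] at hp
  obtain ⟨⟨q, e, f⟩, -, rfl⟩ := hp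
  have a1 : ∀ i j, (GJ n).Adj (s e i) (t f j) := fun i j => ⟨hst _ _ _ _, Or.inl (hs _ _)⟩
  have a2 : ∀ i j, (GJ n).Adj (t f j) (s e i) := fun i j => ⟨hts _ _ _ _, Or.inr (hs _ _)⟩
  have a3 : ∀ i j, i ≠ j → (GJ n).Adj (s e i) (s e j) := fun i j hij =>
    ⟨hsne _ _ _ hij, Or.inl (hs _ _)⟩
  have s01 := hsne e 0 1 (by decide)
  have s02 := hsne e 0 2 (by decide)
  have s12 := hsne e 1 2 (by decide)
  have t01 := htne f 0 1 (by decide)
  have t02 := htne f 0 2 (by decide)
  have t12 := htne f 1 2 (by decide)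
  fin_cases q
  · simp only [g, Fin.zero_eta, if_true]
    rw [mem_P6]
    refine ⟨?_, a2 _ _, a1 _ _, a2 _ _, a1 _ _, a2 _ _⟩
    simp [hst, hts, s01, s02, s12, t01, t02, t12]
  · simp [g]
    rw [mem_P6]
    refine ⟨?_, a2 _ _, a1 _ _, a2 _ _, a3 _ _ (by decide), a1 _ _⟩
    simp [hst, hts, s01, s02, s12, t01, t02, t12]
  · simp [g]
    rw [mem_P6]
    refine ⟨?_, a2 _ _, a3 _ _ (by decide), a1 _ _, a2 _ _, a1 _ _⟩
    simp [hst, hts, s01, s02, s12, t01, t02, t12]
  · simp [g]
    rw [mem_P6]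
    refine ⟨?_, a1 _ _, a2 _ _, a1 _ _, a2 _ _, a1 _ _⟩
    simp [hst, hts, s01, s02, s12, t01, t02, t12]

theorem t_LOWER : S_LOWER := by
  intro n
  rcases Nat.lt_or_ge n 6 with h | h
  · refine ⟨⊥, ?_, ?_⟩
    · intro a b c d e f g h _ h1
      exact absurd h1 (by simp)
    · have : gf n = 0 := by simp [gf]; omega
      rw [this]; simp
  rcases Nat.lt_or_ge n 7 with h' | h'
  · have h6 : n = 6 := by omega
    subst h6
    refine ⟨GK 6 6, GK_noP8 (by norm_num), ?_⟩
    refine le_trans ?_ (GK_count le_rfl)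
    decide
  rcases Nat.lt_or_ge n 11 with h2 | h2
  · refine ⟨GK n 7, GK_noP8 le_rfl, ?_⟩
    refine le_trans ?_ (GK_count h')
    have : gf n = 2520 := by
      unfold gf
      rw [if_neg (by omega), if_neg (by omega), if_pos (by omega)]
    rw [this]
    decide
  · refine ⟨GJ n, GJ_noP8, ?_⟩
    refine le_trans ?_ (GJ_count (by omega))
    have : gf n = 12 * (n - 3) * (n - 4) * (n - 5) := by
      unfold gf
      rw [if_neg (by omega), if_neg (by omega), if_neg (by omega)]
    rw [this]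
    have h3 : (n - 3).descFactorial 3 = (n - 3) * (n - 4) * (n - 5) := by
      simp only [Nat.descFactorial_succ, Nat.descFactorial_zero]
      have e1 : n - 3 - 2 = n - 5 := by omega
      have e2 : n - 3 - 1 = n - 4 := by omega
      have e3 : n - 3 - 0 = n - 3 := by omega
      rw [e1, e2, e3]
      ring
    rw [h3]
    apply le_of_eq
    ring

end Pool.Agent.K3h33.PP
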